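import Pool.Agent.TH729.CC.Hom
import Pool.Agent.TH729.SQ.Values

/-!
# The semialgebraic form of Mazur's conjecture for one equation of degree at most three

* `K` is a field algebraic over `ℚ` (for example a number field) with an embedding `K → ℝ`, and `f`
  is an arbitrary polynomial over `K` of degree at most three, in any number of variables: it may
  be reducible, and the hypersurface `f = 0` may be singular or a cone.  The closure in `ℝⁿ` of the
  set of the `K`-rational points of `f = 0` is semialgebraic over `ℚ`.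
* For `K = ℚ`, the closure of the set of the values of arbitrary rational functions at the rational
  points of products of such hypersurfaces and affine spaces is semialgebraic over `ℚ`.  For
  example, for a polynomial `f(t, y)` of degree at most three, the closure of the set of all
  rational `t` for which `f(t, y) = 0` has a rational solution `y` is a finite union of intervals
  and points with algebraic end points.

(Every system of polynomial equations over `ℚ` is equivalent to one equation of degree at most
four, with more variables.)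

Ingredients: `TH729/CC/Ann`, `Alg`, `ThmA` (a cubic form in at least four variables without a
rational linear factor and without a rational singular zero, such that the closure of its rational
zeros contains no neighbourhood of a smooth zero, has all its rational zeros in finitely many
rational hyperplanes), `TH729/CC/Lin3`, `Curve` (plane cubics), `TH729/CC/AsmA`-`AsmD` (the
induction on the dimension, with the theorem of `TH729/SQ` that a relatively clopen subset of a
semialgebraic set over `ℚ` is semialgebraic over `ℚ`).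
-/

set_option autoImplicit false

namespace Pool.Agent.Results.MP_42de19_nt.CubicHypersurfaces

open MvPolynomial Pool.Agent.TH729.SQ Pool.Agent.TH729.CC

/-- Semialgebraic sets defined over `ℚ`: the finite unions of sets
`{p = 0, q₁ > 0, …, q_k > 0}`, where `p` and the `qᵢ` are polynomials with rational
coefficients. -/
def Semialgebraic {n : ℕ} (S : Set (Fin n → ℝ)) : Prop :=
  ∃ (m : ℕ) (P : Fin m → MvPolynomial (Fin n) ℚ) (G : Fin m → Finset (MvPolynomial (Fin n) ℚ)),
    S = {x : Fin n → ℝ | ∃ j : Fin m, (aeval x (P j) : ℝ) = 0 ∧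
      ∀ g ∈ G j, (0 : ℝ) < aeval x g}

theorem result :
    -- the closure of the rational points
    (∀ (K : Type) [Field K] [CharZero K] [Algebra.IsAlgebraic ℚ K] (σ : K →+* ℝ) (n : ℕ)
      (f : MvPolynomial (Fin n) K), f.totalDegree ≤ 3 →
      Semialgebraic (closure ((fun (r : Fin n → K) i => σ (r i)) '' {r | eval r f = 0}))) ∧
    -- the closure of the values of rational functions at the rational points of products of
    -- such hypersurfaces and of affine spaces
    (∀ (ι κ : Type) [Finite ι] [Finite κ] (n : ℕ) (f : ι → MvPolynomial (Fin n) ℚ),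
      (∀ j, (f j).totalDegree ≤ 3) →
      ∀ (m : ℕ) (p : Fin m → MvPolynomial ((ι × Fin n) ⊕ κ) ℚ)
        (q : MvPolynomial ((ι × Fin n) ⊕ κ) ℚ),
        Semialgebraic (closure {y : Fin m → ℝ | ∃ (x : ι → Fin n → ℚ) (u : κ → ℚ),
          (∀ j, eval (x j) (f j) = 0) ∧ eval (Sum.elim (fun r => x r.1 r.2) u) q ≠ 0 ∧
          ∀ k, y k = ((eval (Sum.elim (fun r => x r.1 r.2) u) (p k) /
            eval (Sum.elim (fun r => x r.1 r.2) u) q : ℚ) : ℝ)})) ∧
    -- one equation of degree at most three with parameters
    (∀ (m n : ℕ) (f : MvPolynomial (Fin m ⊕ Fin n) ℚ), f.totalDegree ≤ 3 →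
      Semialgebraic (closure ((fun (t : Fin m → ℚ) i => ((t i : ℚ) : ℝ)) ''
        {t | ∃ y : Fin n → ℚ, eval (Sum.elim t y) f = 0}))) := by
  have h1 : ∀ (K : Type) [Field K] [CharZero K] [Algebra.IsAlgebraic ℚ K] (σ : K →+* ℝ) (n : ℕ)
      (f : MvPolynomial (Fin n) K), f.totalDegree ≤ 3 →
      Pool.Agent.H581R2.SA
        (closure ((fun (r : Fin n → K) i => σ (r i)) '' {r | eval r f = 0})) := by
    intro K _ _ _ σ n f hf
    have halg : ∀ r : K, IsAlgebraic ℚ (σ r) := by
      intro r
      have h := Algebra.IsAlgebraic.isAlgebraic (R := ℚ) r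
      have hc : σ.comp (algebraMap ℚ K) = algebraMap ℚ ℝ := Subsingleton.elim _ _
      obtain ⟨p, hp, hp2⟩ := h
      refine ⟨p, hp, ?_⟩
      rw [Polynomial.aeval_def, ← hc, ← Polynomial.hom_eval₂, ← Polynomial.aeval_def, hp2,
        map_zero]
    have h2 := affine_SA σ halg f hf
    have h3 : {x : Fin n → ℝ | ∃ r : Fin n → K, eval r f = 0 ∧ x = fun i => σ (r i)} =
        (fun (r : Fin n → K) i => σ (r i)) '' {r | eval r f = 0} := by
      ext x
      constructor
      · rintro ⟨r, hr, rfl⟩
        exact ⟨r, hr, rfl⟩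
      · rintro ⟨r, hr, rfl⟩
        exact ⟨r, hr, rfl⟩
    rwa [h3] at h2
  have h2 : ∀ (ι κ : Type) [Finite ι] [Finite κ] (n : ℕ) (f : ι → MvPolynomial (Fin n) ℚ),
      (∀ j, (f j).totalDegree ≤ 3) →
      ∀ (m : ℕ) (p : Fin m → MvPolynomial ((ι × Fin n) ⊕ κ) ℚ)
        (q : MvPolynomial ((ι × Fin n) ⊕ κ) ℚ),
        Pool.Agent.H581R2.SA (closure {y : Fin m → ℝ | ∃ (x : ι → Fin n → ℚ) (u : κ → ℚ),
          (∀ j, eval (x j) (f j) = 0) ∧ eval (Sum.elim (fun r => x r.1 r.2) u) q ≠ 0 ∧
          ∀ k, y k = ((eval (Sum.elim (fun r => x r.1 r.2) u) (p k) /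
            eval (Sum.elim (fun r => x r.1 r.2) u) q : ℚ) : ℝ)}) := by
    intro ι κ _ _ n f hf m p q
    refine values_main (fun j => {r : Fin n → ℚ | eval r (f j) = 0}) (fun j => ?_) p q
    have h3 := h1 ℚ (Rat.castHom ℝ) n (f j) (hf j)
    have h4 : rl {r : Fin n → ℚ | eval r (f j) = 0} =
        (fun (r : Fin n → ℚ) i => Rat.castHom ℝ (r i)) '' {r | eval r (f j) = 0} := by
      ext x
      constructor
      · rintro ⟨r, hr, rfl⟩
        exact ⟨r, hr, rfl⟩
      · rintro ⟨r, hr, rfl⟩
        exact ⟨r, hr, rfl⟩
    rwa [h4]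
  refine ⟨fun K _ _ _ σ n f hf => SA.frozen (h1 K σ n f hf),
    fun ι κ _ _ n f hf m p q => SA.frozen (h2 ι κ n f hf m p q), fun m n f hf => SA.frozen ?_⟩
  -- the last part is a special case
  let e : Fin m ⊕ Fin n ≃ Fin (m + n) := finSumFinEquiv
  have h3 := h2 Unit Empty (m + n) (fun _ => rename e f)
    (fun _ => (totalDegree_rename_le e f).trans hf) m
    (fun k => X (Sum.inl ((), e (Sum.inl k)))) 1
  have h4 : {y : Fin m → ℝ | ∃ (x : Unit → Fin (m + n) → ℚ) (u : Empty → ℚ),
      (∀ j, eval (x j) ((fun _ => rename e f) j) = 0) ∧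
      eval (Sum.elim (fun r : Unit × Fin (m + n) => x r.1 r.2) u) 1 ≠ 0 ∧
      ∀ k, y k = ((eval (Sum.elim (fun r : Unit × Fin (m + n) => x r.1 r.2) u)
        ((fun k => X (Sum.inl ((), e (Sum.inl k)))) k) /
        eval (Sum.elim (fun r : Unit × Fin (m + n) => x r.1 r.2) u) 1 : ℚ) : ℝ)} =
      (fun (t : Fin m → ℚ) i => ((t i : ℚ) : ℝ)) ''
        {t | ∃ y : Fin n → ℚ, eval (Sum.elim t y) f = 0} := by
    ext y
    constructor
    · rintro ⟨x, u, hx, -, hy⟩
      refine ⟨fun k => x () (e (Sum.inl k)), ⟨fun k => x () (e (Sum.inr k)), ?_⟩, ?_⟩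
      · have h5 := hx ()
        simp only [eval_rename] at h5
        rw [← h5]
        congr 1
        congr 1
        funext s
        rcases s with s | s <;> rfl
      · funext k
        rw [hy k]
        simp
    · rintro ⟨t, ⟨z, hz⟩, rfl⟩
      refine ⟨fun _ s => Sum.elim t z (e.symm s), fun s => s.elim, fun _ => ?_, by simp,
        fun k => ?_⟩
      · simp only [eval_rename]
        rw [← hz]
        congr 1
        congr 1
        funext s
        simp
      · simp
  rwa [h4] at h3

end Pool.Agent.Results.MP_42de19_nt.CubicHypersurfaces
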