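import Pool.Agent.TH178.WA.Real

/-!
# The semialgebraic form of Mazur's conjecture for double covers of products of projective spaces

`K` is a field algebraic over `ℚ` (for example a number field) with an embedding `K → ℝ`, and `f` is
a polynomial over `K` in `n` variables, of degree at most two in each of the variables (its total
degree can be `2 n`). We consider the affine variety `w² = f(t₁, …, t_n)`.

(1) If the closure in `ℝⁿ` of the set of the `K`-rational zeros of `f` at which all first partial
derivatives vanish is semialgebraic over `ℚ` (for instance if there are only finitely many such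
zeros), then the closure in `ℝⁿ⁺¹` of the set of the `K`-rational points of `w² = f(t)` is
semialgebraic over `ℚ`.

(2) The same for `K = ℚ` and for the closure of the set of the values of rational functions at the
rational points of products of such varieties and affine spaces.

A double cover of a product of projective spaces (for example of `(ℙ¹)ⁿ`) which is branched along a
divisor of multidegree `(2, …, 2)` is covered by affine open subsets of this form; for example all
smooth double covers of this type. The varieties `Q(w₁, …, w_r) = f(t)` with a quadratic form `Q`,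
for example `N(w₁ + √d w₂) = f(t)`, are of this form, too, since `Q` can be diagonalized.

Ingredients: the closure is open in the set of real points at its smooth points
(`Pool.Agent.TH178.WA`), and relatively clopen subsets of semialgebraic sets over `ℚ` are
semialgebraic over `ℚ` (`Pool.Agent.TH729.SQ`, helper729).
-/

set_option autoImplicit false

namespace Pool.Agent.Results.MP_42de19_nt.DoubleCovers

open MvPolynomial Pool.Agent.TH729.SQ Pool.Agent.TH178.WA Pool.Agent.H581R2

/-- Semialgebraic sets defined over `ℚ`: the finite unions of sets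
`{p = 0, q₁ > 0, …, q_k > 0}`, where `p` and the `qᵢ` are polynomials with rational
coefficients. -/
def Semialgebraic {n : ℕ} (S : Set (Fin n → ℝ)) : Prop :=
  ∃ (m : ℕ) (P : Fin m → MvPolynomial (Fin n) ℚ) (G : Fin m → Finset (MvPolynomial (Fin n) ℚ)),
    S = {x : Fin n → ℝ | ∃ j : Fin m, (aeval x (P j) : ℝ) = 0 ∧
      ∀ g ∈ G j, (0 : ℝ) < aeval x g}

theorem Semialgebraic.sa {n : ℕ} {S : Set (Fin n → ℝ)} (h : Semialgebraic S) : SA S := by
  obtain ⟨m, P, G, rfl⟩ := h
  refine SAP.exists_fin fun j => SAP.and (SAP.eq_zero (PF.aeval (P j))) ?_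
  exact SAP.forall_mem (G j) fun g _ => SAP.pos (PF.aeval g)

theorem finite_semialgebraic {K : Type} [Field K] [CharZero K] [Algebra.IsAlgebraic ℚ K]
    (σ : K →+* ℝ) {n : ℕ} {S : Set (Fin n → K)} (hS : S.Finite) :
    Semialgebraic (closure (rpt σ S)) :=
  SA.frozen (sa_finite σ (alg_of_alg K σ) hS)

/-- **The closure of the set of rational points of `w² = f(t)`, `f` of degree at most two in each
variable.** -/
theorem result :
    -- (1) the closure of the `K`-rational points
    (∀ (K : Type) [Field K] [CharZero K] [Algebra.IsAlgebraic ℚ K] (σ : K →+* ℝ) (n : ℕ)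
      (f : MvPolynomial (Fin n) K), (∀ i, f.degreeOf i ≤ 2) →
      ((singFin f).Finite ∨ Semialgebraic (closure (rpt σ (singFin f)))) →
      Semialgebraic (closure (rpt σ (coverFin f)))) ∧
    -- (2) the closure of the values of rational functions at the rational points of products
    (∀ (ι κ : Type) [Finite ι] [Finite κ] (n : ℕ) (f : ι → MvPolynomial (Fin n) ℚ),
      (∀ j i, (f j).degreeOf i ≤ 2) →
      (∀ j, (singFin (f j)).Finite ∨ Semialgebraic (closure (rpt (Rat.castHom ℝ) (singFin (f j))))) →
      ∀ (m : ℕ) (p : Fin m → MvPolynomial ((ι × Fin (n + 1)) ⊕ κ) ℚ)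
        (q : MvPolynomial ((ι × Fin (n + 1)) ⊕ κ) ℚ),
        Semialgebraic (closure {y : Fin m → ℝ | ∃ (x : ι → Fin (n + 1) → ℚ) (u : κ → ℚ),
          (∀ j, x j ∈ coverFin (f j)) ∧ eval (Sum.elim (fun r => x r.1 r.2) u) q ≠ 0 ∧
          ∀ k, y k = ((eval (Sum.elim (fun r => x r.1 r.2) u) (p k) /
            eval (Sum.elim (fun r => x r.1 r.2) u) q : ℚ) : ℝ)})) := by
  have h1 : ∀ (K : Type) [Field K] [CharZero K] [Algebra.IsAlgebraic ℚ K] (σ : K →+* ℝ) (n : ℕ)
      (f : MvPolynomial (Fin n) K), (∀ i, f.degreeOf i ≤ 2) →
      ((singFin f).Finite ∨ Semialgebraic (closure (rpt σ (singFin f)))) →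
      SA (closure (rpt σ (coverFin f))) := by
    intro K _ _ _ σ n f hf hs
    have h2 : Semialgebraic (closure (rpt σ (singFin f))) := by
      rcases hs with h | h
      · exact finite_semialgebraic σ h
      · exact h
    exact coverFin_SA σ (alg_of_alg K σ) hf h2.sa
  refine ⟨fun K _ _ _ σ n f hf hs => SA.frozen (h1 K σ n f hf hs), ?_⟩
  intro ι κ _ _ n f hf hs m p q
  exact SA.frozen (values_main (fun j => coverFin (f j))
    (fun j => by
      have h3 := h1 ℚ (Rat.castHom ℝ) n (f j) (hf j) (hs j)
      have h4 : rl (coverFin (f j)) = rpt (Rat.castHom ℝ) (coverFin (f j)) := by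
        ext x
        constructor
        · rintro ⟨r, hr, rfl⟩
          exact ⟨r, hr, rfl⟩
        · rintro ⟨r, hr, rfl⟩
          exact ⟨r, hr, rfl⟩
      rw [h4]
      exact h3) p q)

end Pool.Agent.Results.MP_42de19_nt.DoubleCovers
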