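import Pool.Agent.TH729.SQ.Tri
import Pool.Agent.TH729.SQ.Values

/-!
# The semialgebraic form of Mazur's conjecture for the triquadratic surfaces

`F` is a form of tridegree `(2,2,2)` over a number field `K`, in the variables
`X (0,0), X (0,1); X (1,0), X (1,1); X (2,0), X (2,1)`, such that the surface `F = 0` in
`P¹ × P¹ × P¹` has only finitely many singular points and contains no fibre of the three
projections to `P¹ × P¹` (smooth surfaces of this kind are K3 surfaces).

* The closure of the `K`-rational points of the affine surface `F(x₀,1,x₁,1,x₂,1) = 0` in its real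
  points, for every embedding `K → ℝ`, is semialgebraic over `ℚ`.  Up to a finite set of rational
  points, which does not depend on the embedding, its part in the smooth locus is a union of
  connected components of the smooth locus of the real surface.
* For `K = ℚ`, the closure of the set of values of arbitrary rational functions at the rational
  points of a product of such surfaces and of an affine space is semialgebraic over `ℚ`.

Ingredients: the local analysis of `W279/TriR` (every rational point outside a finite set is an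
interior point of the closure, and limits of interior points at smooth points are interior
points), and the theorem `TH729.SQ.sa_of_lc`: a relatively open and closed subset of a
semialgebraic set over `ℚ` is semialgebraic over `ℚ` (proved with Tarski–Seidenberg and Thom's
lemma).
-/

set_option autoImplicit false

namespace Pool.Agent.Results.MP_42de19_nt.TriquadraticSemialgebraic

open MvPolynomial Pool.Agent.W279.Tri Pool.Agent.W279.TriR Pool.Agent.TH729.SQ

/-- The hypotheses on the form `F`. -/
structure Admissible {K : Type} [Field K] (F : MvPolynomial (Fin 3 × Fin 2) K) : Prop where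
  /-- `F` has the tridegree `(2,2,2)` -/
  tridegree : ∀ m ∈ F.support, ∀ i : Fin 3, m (i, 0) + m (i, 1) = 2
  /-- no fibre of the projections to two of the factors lies on the surface -/
  noFibre : ∀ (i : Fin 3) (p : Fin 3 → Fin 2 → AlgebraicClosure K), (∀ j, p j ≠ 0) →
    ∃ w : Fin 2 → AlgebraicClosure K,
      aeval (fun q : Fin 3 × Fin 2 => Function.update p i w q.1 q.2) F ≠ 0
  /-- the surface has only finitely many singular points -/
  isolated : ∃ S : Set (Fin 3 → Fin 2 → AlgebraicClosure K), S.Finite ∧
    ∀ p : Fin 3 → Fin 2 → AlgebraicClosure K, (∀ i, p i ≠ 0) →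
      (∀ q : Fin 3 × Fin 2, aeval (fun r : Fin 3 × Fin 2 => p r.1 r.2) (pderiv q F) = 0) →
      ∃ s ∈ S, ∀ i, ∃ t : AlgebraicClosure K, p i = t • s i

/-- The six coordinates of `(x₀ : 1, x₁ : 1, x₂ : 1)`. -/
def aff {R : Type} [One R] (x : Fin 3 → R) (q : Fin 3 × Fin 2) : R :=
  if q.2 = 0 then x q.1 else 1

/-- The rational points of the affine surface `F(x₀,1,x₁,1,x₂,1) = 0`. -/
def points {K : Type} [Field K] (F : MvPolynomial (Fin 3 × Fin 2) K) : Set (Fin 3 → K) :=
  {x | eval (aff x) F = 0}

/-- The real points of the affine surface at which one of the partial derivatives of `F` is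
not zero. -/
def smooth {K : Type} [Field K] (F : MvPolynomial (Fin 3 × Fin 2) K) (σ : K →+* ℝ) :
    Set (Fin 3 → ℝ) :=
  {x | eval₂ σ (aff x) F = 0 ∧ ∃ q, eval₂ σ (aff x) (pderiv q F) ≠ 0}

/-- The image of a set of `K`-rational points in the real points. -/
def real {K : Type} [Field K] (σ : K →+* ℝ) (D : Set (Fin 3 → K)) : Set (Fin 3 → ℝ) :=
  (fun r i => σ (r i)) '' D

/-- Semialgebraic sets defined over `ℚ`: the finite unions of sets
`{p = 0, q₁ > 0, …, q_k > 0}`, where `p` and the `qᵢ` are polynomials with rational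
coefficients. -/
def Semialgebraic {n : ℕ} (S : Set (Fin n → ℝ)) : Prop :=
  ∃ (m : ℕ) (P : Fin m → MvPolynomial (Fin n) ℚ) (G : Fin m → Finset (MvPolynomial (Fin n) ℚ)),
    S = {x : Fin n → ℝ | ∃ j : Fin m, (aeval x (P j) : ℝ) = 0 ∧
      ∀ g ∈ G j, (0 : ℝ) < aeval x g}

theorem result :
    -- the closure of the rational points
    (∀ (K : Type) [Field K] [NumberField K] (F : MvPolynomial (Fin 3 × Fin 2) K),
      Admissible F →
      ∃ T : Set (Fin 3 → K), T.Finite ∧ T ⊆ points F ∧
        ∀ σ : K →+* ℝ, Semialgebraic (closure (real σ (points F))) ∧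
          ∀ x ∈ closure (real σ (points F)), x ∈ smooth F σ →
            x ∈ real σ T ∨
              connectedComponentIn (smooth F σ) x ⊆ closure (real σ (points F))) ∧
    -- the closure of the values of rational functions at the rational points of products of
    -- such surfaces and of affine spaces
    (∀ (ι κ : Type) [Finite ι] [Finite κ] (F : ι → MvPolynomial (Fin 3 × Fin 2) ℚ),
      (∀ j, Admissible (F j)) →
      ∀ (n : ℕ) (p : Fin n → MvPolynomial ((ι × Fin 3) ⊕ κ) ℚ)
        (q : MvPolynomial ((ι × Fin 3) ⊕ κ) ℚ),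
        Semialgebraic (closure {y : Fin n → ℝ | ∃ (x : ι → Fin 3 → ℚ) (u : κ → ℚ),
          (∀ j, x j ∈ points (F j)) ∧ eval (Sum.elim (fun r => x r.1 r.2) u) q ≠ 0 ∧
          ∀ k, y k = ((eval (Sum.elim (fun r => x r.1 r.2) u) (p k) /
            eval (Sum.elim (fun r => x r.1 r.2) u) q : ℚ) : ℝ)})) := by
  have haf : ∀ {R : Type} [Field R] (x : Fin 3 → R), aff x = fun q => af x q.1 q.2 := by
    intro R _ x
    funext ⟨i, a⟩
    fin_cases a <;> simp [aff, af]
  have h1 : ∀ (K : Type) [Field K] [NumberField K] (F : MvPolynomial (Fin 3 × Fin 2) K),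
      Admissible F →
      ∃ T : Set (Fin 3 → K), T.Finite ∧ T ⊆ points F ∧
        ∀ σ : K →+* ℝ, Pool.Agent.H581R2.SA (closure (real σ (points F))) ∧
          ∀ x ∈ closure (real σ (points F)), x ∈ smooth F σ →
            x ∈ real σ T ∨
              connectedComponentIn (smooth F σ) x ⊆ closure (real σ (points F)) := by
    intro K _ _ F hF
    have hF' := hF
    obtain ⟨c, hc⟩ := exists_form hF.tridegree
    subst hc
    obtain ⟨T, hT, hT1, hT2⟩ := tri_main (nice_of hF'.noFibre hF'.isolated)
    have hpt : ∀ r : Fin 3 → K, r ∈ points (form c) ↔ E c (af r 0) (af r 1) (af r 2) = 0 := by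
      intro r
      change eval (aff r) (form c) = 0 ↔ _
      rw [haf, eval_form]
    refine ⟨T, hT, fun r hr => (hpt r).2 (hT1 r hr), fun σ => ?_⟩
    have hreal : real σ (points (form c)) = VK c σ := by
      ext x
      constructor
      · rintro ⟨r, hr, rfl⟩
        exact ⟨r, (hpt r).1 hr, rfl⟩
      · rintro ⟨r, hr, rfl⟩
        exact ⟨r, (hpt r).2 hr, rfl⟩
    have hsm : smooth (form c) σ = Vs (cr c σ) := by
      ext x
      change (eval₂ σ (aff x) (form c) = 0 ∧ ∃ q, eval₂ σ (aff x) (pderiv q (form c)) ≠ 0) ↔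
        (E (cr c σ) (af x 0) (af x 1) (af x 2) = 0 ∧
          ¬SingX (cr c σ) (af x 0) (af x 1) (af x 2))
      rw [singX_real c σ (af x), haf, ← eval₂_cr c σ (af x), not_forall]
    rw [hreal, hsm]
    obtain ⟨h2, h3⟩ := hT2 σ
    refine ⟨h2, fun x hx hxs => ?_⟩
    rcases h3 x hx hxs with ⟨r, hr, h4⟩ | h4
    · exact Or.inl ⟨r, hr, h4.symm⟩
    · exact Or.inr h4
  refine ⟨fun K _ _ F hF => ?_, fun ι κ _ _ F hF n p q => ?_⟩
  · obtain ⟨T, hT, hT1, hT2⟩ := h1 K F hF
    exact ⟨T, hT, hT1, fun σ => ⟨SA.frozen (hT2 σ).1, (hT2 σ).2⟩⟩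
  · refine SA.frozen (values_main (fun j => points (F j)) (fun j => ?_) p q)
    obtain ⟨T, hT, hT1, hT2⟩ := h1 ℚ (F j) (hF j)
    have h2 := (hT2 (Rat.castHom ℝ)).1
    have e : rl (points (F j)) = real (Rat.castHom ℝ) (points (F j)) := by
      ext x
      constructor
      · rintro ⟨r, hr, rfl⟩
        exact ⟨r, hr, rfl⟩
      · rintro ⟨r, hr, rfl⟩
        exact ⟨r, hr, rfl⟩
    rw [e]
    exact h2

end Pool.Agent.Results.MP_42de19_nt.TriquadraticSemialgebraic
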