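import Pool.Agent.TH729.BQ.R6

/-!
# The semialgebraic form of Mazur's conjecture for two equations of degree at most two, and for
one equation of bidegree (2,2)

* `K` is a field algebraic over `ℚ` (for example a number field) with an embedding `K → ℝ`, and
  `f`, `g` are arbitrary polynomials over `K` of degree at most two, in any number of variables:
  the intersection of the two quadrics may be singular, reducible, a cone, or of any dimension.
  The closure in `ℝⁿ` of the set of the common `K`-rational zeros of `f` and `g` is semialgebraic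
  over `ℚ`.
* The same holds for the hypersurface

    `a(x₁, …, xₙ) t² + b(x₁, …, xₙ) t + c(x₁, …, xₙ) = 0`,   `n ≥ 2`,

  with linearly independent polynomials `a`, `b`, `c` over `K` of degree at most two, such that the
  quadratic form in `n + 1` variables obtained from the left-hand side by homogenizing with respect
  to `x₁, …, xₙ` is nondegenerate for some value `t ∈ K`.  (It may be singular, and some of its
  fibres over the `t`-line may be cones or reducible.)
* For `K = ℚ`, the closure of the set of the values of arbitrary rational functions at the rational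
  points of products of such intersections, of such hypersurfaces, of hypersurfaces of degree at
  most three and of affine spaces is semialgebraic over `ℚ`.
* In particular, for polynomials `f(t, y)`, `g(t, y)` of degree at most two, the closure of the set
  of all rational `t` for which `f(t, y) = g(t, y) = 0` has a rational solution `y` is
  semialgebraic over `ℚ`.

(Every system of polynomial equations over `ℚ` is equivalent to a system of equations of degree at
most two, and to one equation of degree at most four, with more variables.)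

Ingredients: if `P` is a rational point of the projective intersection `Q₁ = Q₂ = 0` and `B₁`, `B₂`
are the bilinear forms, then the map `w ↦ 2 B₁(P, w) w - Q₁(w) P` sends the cubic hypersurface
`B₁(P, w) Q₂(w) = B₂(P, w) Q₁(w)` to the intersection, and is the identity (projectively) on the
part of the intersection with `B₁(P, w) ≠ 0`.  So the theorem for arbitrary cubic forms
(`TH729/CC/AsmD`) describes the closure of the rational points outside of the hyperplane
`B₁(P, w) = 0`, and the hyperplane section is again an intersection of two quadrics.  The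
remaining cases (cones, and no rational point off all such hyperplanes) are reductions of the
dimension.

For the equation of bidegree `(2,2)`: a rational point `P` on a smooth fibre over the `t`-line moves
in its fibre, which satisfies weak approximation, and then to the second point of the hypersurface
over the same `x`.  A transversality argument shows that the limits of the points obtained from `P`
in two steps of this kind fill a neighbourhood of `P` in the set of the real points.  So the closure
of the rational points is open in the set of the real points of the smooth fibres (library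
`TH729/BQ`), and therefore it is a union of connected components of this semialgebraic set.  The
singular fibres are finitely many quadrics.
-/

set_option autoImplicit false

namespace Pool.Agent.Results.MP_42de19_nt.TwoQuadrics

open MvPolynomial Matrix

/-- Semialgebraic sets defined over `ℚ`: the finite unions of sets
`{p = 0, q₁ > 0, …, q_k > 0}`, where `p` and the `qᵢ` are polynomials with rational
coefficients. -/
def Semialgebraic {n : ℕ} (S : Set (Fin n → ℝ)) : Prop :=
  ∃ (m : ℕ) (P : Fin m → MvPolynomial (Fin n) ℚ) (G : Fin m → Finset (MvPolynomial (Fin n) ℚ)),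
    S = {x : Fin n → ℝ | ∃ j : Fin m, (aeval x (P j) : ℝ) = 0 ∧
      ∀ g ∈ G j, (0 : ℝ) < aeval x g}

/-- The set of the zeros `y = (t, x₁, …, xₙ)` of a polynomial `a(x) t² + b(x) t + c(x)`, where `a`,
`b`, `c` are given by the symmetric matrices `A`, `B`, `C`, evaluated at the vector
`(1, x₁, …, xₙ)`, which is `Function.update y 0 1`.  We require that `n ≥ 2`, that the matrices are
linearly independent and that `t² A + t B + C` is invertible for some `t`. -/
def TwoTwo {K : Type} [Field K] {n : ℕ} (S : Set (Fin (n + 1) → K)) : Prop :=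
  2 ≤ n ∧ ∃ A B C : Matrix (Fin (n + 1)) (Fin (n + 1)) K, A.IsSymm ∧ B.IsSymm ∧ C.IsSymm ∧
    LinearIndependent K ![A, B, C] ∧ (∃ t : K, (t ^ 2 • A + t • B + C).det ≠ 0) ∧
    S = {y | Function.update y 0 1 ⬝ᵥ (y 0 ^ 2 • A + y 0 • B + C) *ᵥ Function.update y 0 1 = 0}

/-- A block: the set of the common zeros of two polynomials of degree at most two, or of the zeros
of one polynomial of degree at most three, or of one polynomial as in `TwoTwo` in some of the
variables. -/
def Block {K : Type} [Field K] {N : ℕ} (S : Set (Fin N → K)) : Prop :=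
  (∃ f g : MvPolynomial (Fin N) K,
    ((f.totalDegree ≤ 2 ∧ g.totalDegree ≤ 2) ∨ (f.totalDegree ≤ 3 ∧ g = 0)) ∧
      S = {y | eval y f = 0 ∧ eval y g = 0}) ∨
  ∃ (n : ℕ) (e : Fin (n + 1) → Fin N) (S₀ : Set (Fin (n + 1) → K)), Function.Injective e ∧
    TwoTwo S₀ ∧ S = {y | (fun i => y (e i)) ∈ S₀}

theorem result :
    -- the closure of the rational points: two equations of degree at most two
    (∀ (K : Type) [Field K] [CharZero K] [Algebra.IsAlgebraic ℚ K] (σ : K →+* ℝ) (n : ℕ)
      (f g : MvPolynomial (Fin n) K), f.totalDegree ≤ 2 → g.totalDegree ≤ 2 →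
      Semialgebraic (closure ((fun (r : Fin n → K) i => σ (r i)) ''
        {r | eval r f = 0 ∧ eval r g = 0}))) ∧
    -- the closure of the rational points: one equation as in `TwoTwo`
    (∀ (K : Type) [Field K] [CharZero K] [Algebra.IsAlgebraic ℚ K] (σ : K →+* ℝ) (n : ℕ)
      (S : Set (Fin (n + 1) → K)), TwoTwo S →
      Semialgebraic (closure ((fun (r : Fin (n + 1) → K) i => σ (r i)) '' S))) ∧
    -- the closure of the values of rational functions at the rational points of products of
    -- blocks and of affine spaces
    (∀ (ι κ : Type) [Finite ι] [Finite κ] (N : ℕ) (S : ι → Set (Fin N → ℚ)),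
      (∀ j, Block (S j)) →
      ∀ (m : ℕ) (p : Fin m → MvPolynomial ((ι × Fin N) ⊕ κ) ℚ)
        (q : MvPolynomial ((ι × Fin N) ⊕ κ) ℚ),
        Semialgebraic (closure {y : Fin m → ℝ | ∃ (x : ι → Fin N → ℚ) (u : κ → ℚ),
          (∀ j, x j ∈ S j) ∧
          eval (Sum.elim (fun r => x r.1 r.2) u) q ≠ 0 ∧
          ∀ k, y k = ((eval (Sum.elim (fun r => x r.1 r.2) u) (p k) /
            eval (Sum.elim (fun r => x r.1 r.2) u) q : ℚ) : ℝ)})) ∧
    -- two equations of degree at most two with parameters
    (∀ (m n : ℕ) (f g : MvPolynomial (Fin m ⊕ Fin n) ℚ), f.totalDegree ≤ 2 →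
      g.totalDegree ≤ 2 →
      Semialgebraic (closure ((fun (t : Fin m → ℚ) i => ((t i : ℚ) : ℝ)) ''
        {t | ∃ y : Fin n → ℚ, eval (Sum.elim t y) f = 0 ∧ eval (Sum.elim t y) g = 0}))) := by
  have h0 : ∀ (K : Type) [Field K] [CharZero K] [Algebra.IsAlgebraic ℚ K] (σ : K →+* ℝ) (n : ℕ)
      (S : Set (Fin (n + 1) → K)), TwoTwo S →
      Pool.Agent.H581R2.SA (closure ((fun (r : Fin (n + 1) → K) i => σ (r i)) '' S)) := by
    rintro K _ _ _ σ n S ⟨hn, A, B, C, hA, hB, hC, hind, hdet, hS⟩
    exact Pool.Agent.TH729.BQ.twoTwo_SA σ hn hA hB hC hind hdet hS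
  have h2 : ∀ (ι κ : Type) [Finite ι] [Finite κ] (N : ℕ) (S : ι → Set (Fin N → ℚ)),
      (∀ j, Block (S j)) →
      ∀ (m : ℕ) (p : Fin m → MvPolynomial ((ι × Fin N) ⊕ κ) ℚ)
        (q : MvPolynomial ((ι × Fin N) ⊕ κ) ℚ),
        Pool.Agent.H581R2.SA (closure {y : Fin m → ℝ | ∃ (x : ι → Fin N → ℚ) (u : κ → ℚ),
          (∀ j, x j ∈ S j) ∧
          eval (Sum.elim (fun r => x r.1 r.2) u) q ≠ 0 ∧
          ∀ k, y k = ((eval (Sum.elim (fun r => x r.1 r.2) u) (p k) /
            eval (Sum.elim (fun r => x r.1 r.2) u) q : ℚ) : ℝ)}) := by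
    intro ι κ _ _ N S hS m p q
    refine Pool.Agent.TH729.BQ.vals_SA (fun j => ?_) p q
    rcases hS j with ⟨f, g, hfg, hSj⟩ | ⟨n, e, S₀, he, hS₀, hSj⟩
    · rw [hSj]
      exact Pool.Agent.TH729.CC.block_SA ℚ (Rat.castHom ℝ) N f g hfg
    · rw [hSj]
      exact Pool.Agent.TH729.BQ.cyl_SA (Rat.castHom ℝ) (h0 ℚ (Rat.castHom ℝ) n S₀ hS₀) he
  refine ⟨fun K _ _ _ σ n f g hf hg => Pool.Agent.TH729.SQ.SA.frozen
      (Pool.Agent.TH729.CC.block_SA K σ n f g (Or.inl ⟨hf, hg⟩)),
    fun K _ _ _ σ n S hS => Pool.Agent.TH729.SQ.SA.frozen (h0 K σ n S hS),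
    fun ι κ _ _ N S hS m p q => Pool.Agent.TH729.SQ.SA.frozen (h2 ι κ N S hS m p q),
    fun m n f g hf hg => Pool.Agent.TH729.SQ.SA.frozen ?_⟩
  -- the last part is a special case
  let e : Fin m ⊕ Fin n ≃ Fin (m + n) := finSumFinEquiv
  have h3 := h2 Unit Empty (m + n)
    (fun _ => {r | eval r (rename e f) = 0 ∧ eval r (rename e g) = 0})
    (fun _ => Or.inl ⟨rename e f, rename e g, Or.inl ⟨(totalDegree_rename_le e f).trans hf,
      (totalDegree_rename_le e g).trans hg⟩, rfl⟩) m
    (fun k => X (Sum.inl ((), e (Sum.inl k)))) 1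
  have h4 : {y : Fin m → ℝ | ∃ (x : Unit → Fin (m + n) → ℚ) (u : Empty → ℚ),
      (∀ j, x j ∈ (fun _ : Unit => {r : Fin (m + n) → ℚ | eval r (rename e f) = 0 ∧
        eval r (rename e g) = 0}) j) ∧
      eval (Sum.elim (fun r : Unit × Fin (m + n) => x r.1 r.2) u) 1 ≠ 0 ∧
      ∀ k, y k = ((eval (Sum.elim (fun r : Unit × Fin (m + n) => x r.1 r.2) u)
        ((fun k => X (Sum.inl ((), e (Sum.inl k)))) k) /
        eval (Sum.elim (fun r : Unit × Fin (m + n) => x r.1 r.2) u) 1 : ℚ) : ℝ)} =
      (fun (t : Fin m → ℚ) i => ((t i : ℚ) : ℝ)) ''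
        {t | ∃ y : Fin n → ℚ, eval (Sum.elim t y) f = 0 ∧ eval (Sum.elim t y) g = 0} := by
    ext y
    constructor
    · rintro ⟨x, u, hx, -, hy⟩
      have hs : (x () ∘ e) = Sum.elim (fun k => x () (e (Sum.inl k)))
          (fun k => x () (e (Sum.inr k))) := by
        funext s
        rcases s with s | s <;> rfl
      refine ⟨fun k => x () (e (Sum.inl k)), ⟨fun k => x () (e (Sum.inr k)), ?_, ?_⟩, ?_⟩
      · have h5 : eval (x ()) (rename e f) = 0 := (hx ()).1
        simp only [eval_rename, hs] at h5
        exact h5
      · have h5 : eval (x ()) (rename e g) = 0 := (hx ()).2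
        simp only [eval_rename, hs] at h5
        exact h5
      · funext k
        rw [hy k]
        simp
    · rintro ⟨t, ⟨z, hz, hz'⟩, rfl⟩
      have hs : ((fun s => Sum.elim t z (e.symm s)) ∘ e) = Sum.elim t z := by
        funext s
        simp
      refine ⟨fun _ s => Sum.elim t z (e.symm s), fun s => s.elim, fun _ => ⟨?_, ?_⟩, by simp,
        fun k => ?_⟩
      · show eval (fun s => Sum.elim t z (e.symm s)) (rename e f) = 0
        simp only [eval_rename, hs]
        exact hz
      · show eval (fun s => Sum.elim t z (e.symm s)) (rename e g) = 0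
        simp only [eval_rename, hs]
        exact hz'
      · simp
  rwa [h4] at h3

end Pool.Agent.Results.MP_42de19_nt.TwoQuadrics
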